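import Pool.Agent.Run7.h670.MY.StmN
import Pool.Agent.Run7.h670.MY.Sob

/-!
# Piece N_CLOSED of the March-Young project (helper670): `IsSobolev` is closed under `L²` limits
-/

set_option autoImplicit false

open MeasureTheory Set Filter Topology
open scoped ENNReal RealInnerProductSpace ContDiff

namespace Run7.h382.MY

open Pool.Agent.Run7.h670.MY

variable {d : ℕ}

/-- pairing with a fixed function in `L²` is continuous -/
theorem tendsto_pair {f : V d → ℂ} {fn : ℕ → V d → ℂ} {ψ : V d → ℂ} (hf : MemLp f 2)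
    (hfn : ∀ n, MemLp (fn n) 2) (hψ : MemLp ψ 2)
    (h : Tendsto (fun n => eLpNorm (fun x => fn n x - f x) 2 volume) atTop (nhds 0)) :
    Tendsto (fun n => ∫ x, fn n x * ψ x) atTop (nhds (∫ x, f x * ψ x)) := by
  have i0 : Integrable (fun x => f x * ψ x) := hf.integrable_mul hψ
  have i1 : ∀ n, Integrable (fun x => fn n x * ψ x) := fun n => (hfn n).integrable_mul hψ
  refine tendsto_integral_of_L1' _ i0.aestronglyMeasurable (Eventually.of_forall i1) ?_
  have h2 : Tendsto (fun n => eLpNorm (fun x => fn n x - f x) 2 volume * eLpNorm ψ 2 volume) atTop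
      (nhds 0) := by
    have h3 := ENNReal.Tendsto.mul_const h (b := eLpNorm ψ 2 volume) (Or.inr hψ.2.ne)
    rwa [zero_mul] at h3
  refine tendsto_of_tendsto_of_tendsto_of_le_of_le tendsto_const_nhds h2 (fun _ => bot_le)
    (fun n => ?_)
  have h4 := eLpNorm_smul_le_mul_eLpNorm (p := 2) (q := 2) (r := 1) (μ := (volume : Measure (V d)))
    hψ.1 ((hfn n).1.sub hf.1)
  have e1 : ((fun x => fn n x * ψ x) - fun x => f x * ψ x) = (fn n - f) • ψ := by
    funext x
    simp only [Pi.sub_apply, Pi.smul_apply', smul_eq_mul]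
    ring
  show eLpNorm ((fun x => fn n x * ψ x) - fun x => f x * ψ x) 1 volume ≤ _
  rw [e1]
  exact h4

theorem t_N_CLOSED : N_CLOSED := by
  intro d f g fn gn hf hg hS hfn hgn
  refine ⟨hf, hg, fun η hη hs i => ?_⟩
  have c1 : MemLp (fun x => ((pd i η x : ℝ) : ℂ)) 2 := memLp_ofReal (pd_cont hη i) (pd_supp hs i)
  have c2 : MemLp (fun x => ((η x : ℝ) : ℂ)) 2 := memLp_ofReal hη.continuous hs
  have t1 := tendsto_pair hf (fun n => (hS n).memLp) c1 hfn
  have t2 := (tendsto_pair (hg i) (fun n => (hS n).memLp_grad i) c2 (hgn i)).neg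
  refine tendsto_nhds_unique t1 (t2.congr fun n => ?_)
  exact ((hS n).weak η hη hs i).symm

end Run7.h382.MY
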